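import Pool.Agent.H63.RU.TU

/-!
# Module TR: distant dilations, the smaller one expanded
-/

set_option autoImplicit false

open Filter Topology

namespace Pool.Agent.H63.RU

open Pool.Agent.H28.MZ Pool.Agent.H47.RU

lemma exp_le_two {x : ℝ} (h0 : 0 ≤ x) (h1 : x ≤ 1) : Real.exp x ≤ 1 + 2 * x := by
  have h := Real.abs_exp_sub_one_le (x := x) (by rw [abs_of_nonneg h0]; exact h1)
  rw [abs_of_nonneg h0] at h
  linarith [(abs_le.1 h).2]

/-- the integers `K` with `K ^ r` close to `n` -/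
lemma fiber {B δ r : ℝ} (hB : 1 ≤ B) (hδ0 : 0 < δ) (hδ : B * δ ≤ 1 / 2) (hr0 : 0 < r)
    (hrB : 1 / B ≤ r) {p : ℝ} (hp1 : -1 ≤ p) (hp0 : p ≤ 0) {n : ℕ} (hn : 1 ≤ n) (F : Finset ℕ)
    (hF : ∀ K ∈ F, 1 ≤ K ∧ |(K : ℝ) ^ r - n| ≤ δ * (K : ℝ) ^ r) :
    ∑ K ∈ F, (K : ℝ) ^ p ≤ 2 * (n : ℝ) ^ (p / r) + 10 * B * δ * (n : ℝ) ^ ((1 + p) / r) := by
  have hn0 : (0 : ℝ) < n := by exact_mod_cast hn
  have hB0 : 0 < B := by linarith
  have hδ1 : δ ≤ 1 / 2 := by nlinarith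
  obtain ⟨y, hy⟩ : ∃ y : ℝ, y = (n : ℝ) ^ (1 / r) := ⟨_, rfl⟩
  have hy0 : 0 < y := by rw [hy]; positivity
  have hly : Real.log y = Real.log n / r := by
    rw [hy, Real.log_rpow hn0]
    ring
  have h1r : 1 / r ≤ B := by
    rw [div_le_iff₀ hr0]
    rw [div_le_iff₀ hB0] at hrB
    linarith
  have hloc : ∀ K ∈ F, y * (1 - B * δ) ≤ K ∧ (K : ℝ) ≤ y * (1 + 4 * B * δ) := by
    intro K hK
    obtain ⟨k1, k2⟩ := hF K hK
    have k0 : (0 : ℝ) < K := by exact_mod_cast k1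
    have hx0 : 0 < (K : ℝ) ^ r := by positivity
    obtain ⟨k3, k4⟩ := abs_le.1 k2
    have k5 : (n : ℝ) ≤ (K : ℝ) ^ r * (1 + δ) := by linarith
    have k6 : (K : ℝ) ^ r * (1 - δ) ≤ n := by linarith
    have l1 : Real.log n ≤ r * Real.log K + Real.log (1 + δ) := by
      rw [← Real.log_rpow k0, ← Real.log_mul hx0.ne' (by linarith)]
      exact Real.log_le_log hn0 k5
    have l2 : r * Real.log K + Real.log (1 - δ) ≤ Real.log n := by
      rw [← Real.log_rpow k0, ← Real.log_mul hx0.ne' (by linarith)]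
      exact Real.log_le_log (mul_pos hx0 (by linarith)) k6
    have l3 : Real.log (1 + δ) ≤ δ := by
      have := Real.log_le_sub_one_of_pos (show 0 < 1 + δ by linarith)
      linarith
    have l4 : -(2 * δ) ≤ Real.log (1 - δ) := by
      have g3 := Real.one_sub_inv_le_log_of_pos (show 0 < 1 - δ by linarith)
      have g4 : -(2 * δ) ≤ 1 - (1 - δ)⁻¹ := by
        have g5 : (1 - δ)⁻¹ ≤ 1 + 2 * δ := by
          rw [inv_le_iff_one_le_mul₀ (by linarith)]
          nlinarith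
        linarith
      linarith
    have l5 : Real.log y - B * δ ≤ Real.log K := by
      rw [hly]
      have : Real.log n / r - δ / r ≤ Real.log K := by
        rw [← sub_div, div_le_iff₀ hr0]
        linarith
      have h2 : δ / r ≤ B * δ := by
        calc δ / r = 1 / r * δ := by ring
          _ ≤ B * δ := by gcongr
      linarith
    have l6 : Real.log K ≤ Real.log y + 2 * (B * δ) := by
      rw [hly]
      have : Real.log K ≤ Real.log n / r + 2 * δ / r := by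
        rw [← add_div, le_div_iff₀ hr0]
        linarith
      have h2 : 2 * δ / r ≤ 2 * (B * δ) := by
        calc 2 * δ / r = 1 / r * (2 * δ) := by ring
          _ ≤ B * (2 * δ) := by gcongr
          _ = 2 * (B * δ) := by ring
      linarith
    constructor
    · calc y * (1 - B * δ) ≤ y * Real.exp (-(B * δ)) := by
            have := Real.add_one_le_exp (-(B * δ))
            exact mul_le_mul_of_nonneg_left (by linarith) hy0.le
        _ = Real.exp (Real.log y - B * δ) := by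
            rw [sub_eq_add_neg, Real.exp_add, Real.exp_log hy0]
        _ ≤ Real.exp (Real.log K) := Real.exp_le_exp.2 l5
        _ = K := Real.exp_log k0
    · calc (K : ℝ) = Real.exp (Real.log K) := (Real.exp_log k0).symm
        _ ≤ Real.exp (Real.log y + 2 * (B * δ)) := Real.exp_le_exp.2 l6
        _ = y * Real.exp (2 * (B * δ)) := by rw [Real.exp_add, Real.exp_log hy0]
        _ ≤ y * (1 + 4 * B * δ) := by
            have := exp_le_two (x := 2 * (B * δ)) (by positivity) (by linarith)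
            exact mul_le_mul_of_nonneg_left (by linarith) hy0.le
  have hcard : (F.card : ℝ) ≤ 1 + 5 * B * δ * y := by
    have hsub : F ⊆ Finset.Icc ⌈y * (1 - B * δ)⌉₊ ⌊y * (1 + 4 * B * δ)⌋₊ := by
      intro K hK
      obtain ⟨k1, k2⟩ := hloc K hK
      rw [Finset.mem_Icc, Nat.ceil_le, Nat.le_floor_iff (by positivity)]
      exact ⟨k1, k2⟩
    have h1 : (F.card : ℝ) ≤
        ((Finset.Icc ⌈y * (1 - B * δ)⌉₊ ⌊y * (1 + 4 * B * δ)⌋₊).card : ℝ) := by
      exact_mod_cast Finset.card_le_card hsub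
    refine h1.trans ?_
    rw [Nat.card_Icc]
    rcases le_total ⌈y * (1 - B * δ)⌉₊ (⌊y * (1 + 4 * B * δ)⌋₊ + 1) with h | h
    · rw [Nat.cast_sub h]
      push_cast
      have g1 := Nat.floor_le (show 0 ≤ y * (1 + 4 * B * δ) by positivity)
      have g2 := Nat.le_ceil (y * (1 - B * δ))
      nlinarith
    · rw [Nat.sub_eq_zero_of_le h]
      push_cast
      positivity
  have hterm : ∀ K ∈ F, (K : ℝ) ^ p ≤ 2 * y ^ p := by
    intro K hK
    obtain ⟨k1, k2⟩ := hloc K hK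
    have k3 : y / 2 ≤ K := by nlinarith
    calc (K : ℝ) ^ p ≤ (y / 2) ^ p := Real.rpow_le_rpow_of_nonpos (by positivity) k3 hp0
      _ = 2 ^ (-p) * y ^ p := by
          rw [Real.div_rpow hy0.le (by norm_num), Real.rpow_neg (by norm_num : (0 : ℝ) ≤ 2)]
          ring
      _ ≤ 2 ^ (1 : ℝ) * y ^ p := by
          refine mul_le_mul_of_nonneg_right
            (Real.rpow_le_rpow_of_exponent_le (by norm_num) (by linarith)) (by positivity)
      _ = 2 * y ^ p := by rw [Real.rpow_one]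
  calc ∑ K ∈ F, (K : ℝ) ^ p ≤ ∑ K ∈ F, 2 * y ^ p := Finset.sum_le_sum hterm
    _ = F.card * (2 * y ^ p) := by rw [Finset.sum_const, nsmul_eq_mul]
    _ ≤ (1 + 5 * B * δ * y) * (2 * y ^ p) := by
        exact mul_le_mul_of_nonneg_right hcard (by positivity)
    _ = 2 * y ^ p + 10 * B * δ * (y ^ (1 : ℝ) * y ^ p) := by rw [Real.rpow_one]; ring
    _ = 2 * (n : ℝ) ^ (p / r) + 10 * B * δ * (n : ℝ) ^ ((1 + p) / r) := by
        rw [← Real.rpow_add hy0, hy, ← Real.rpow_mul hn0.le, ← Real.rpow_mul hn0.le]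
        congr 3
        · ring
        · ring

theorem pf_TR : T_TR := by
  intro B ε R κ₀ hB hε hε1 hR hκ₀
  classical
  have hB0 : 0 < B := by linarith
  obtain ⟨e, he⟩ : ∃ e : ℝ, e = ε / (1000 * B) := ⟨_, rfl⟩
  have he0 : 0 < e := by rw [he]; positivity
  have heB : e * B = ε / 1000 := by
    rw [he]
    field_simp
  have heε : e ≤ ε / 1000 := by nlinarith
  obtain ⟨C, hC, hd⟩ := Pool.Agent.H89.Cubic.div_bound e he0
  obtain ⟨Z2, hZ2⟩ : ∃ Z2 : ℝ, Z2 = ∑' K : ℕ, (K : ℝ) ^ (-2 : ℝ) := ⟨_, rfl⟩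
  have hZ20 : 0 ≤ Z2 := by
    rw [hZ2]
    exact tsum_nonneg fun n => by positivity
  obtain ⟨κ₁, hκ₁⟩ : ∃ κ₁ : ℝ, κ₁ = κ₀ / 3 / (8 * C ^ 2) := ⟨_, rfl⟩
  have hκ₁0 : 0 < κ₁ := by rw [hκ₁]; positivity
  -- choice of `K₀`
  obtain ⟨N₁, hN₁⟩ := small_tail (s := 1 + 7 * ε) (by linarith) (show 0 < κ₁ / 2 / 2 by positivity)
  obtain ⟨K₀, hK₀⟩ : ∃ K₀ : ℕ, K₀ = ⌈(2 * ((N₁ : ℝ) + 1)) ^ B⌉₊ + 1 := ⟨_, rfl⟩
  -- choice of `T₀`
  have ev1 : ∀ᶠ T : ℝ in atTop, R / Real.log T ≤ e :=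
    (Real.tendsto_log_atTop.const_div_atTop R).eventually_le_const he0
  have ev2 : ∀ᶠ T : ℝ in atTop, (8 : ℝ) ≤ T ^ (1 - ε) :=
    (tendsto_rpow_atTop (show 0 < 1 - ε by linarith)).eventually_ge_atTop 8
  have ev3 : ∀ᶠ T : ℝ in atTop, B * T ^ (-(1 - 2 * ε)) ≤ (1 / 2 : ℝ) := by
    have h1 := (tendsto_rpow_neg_atTop (show 0 < 1 - 2 * ε by linarith)).const_mul B
    rw [mul_zero] at h1
    exact h1.eventually_le_const (by norm_num)
  have ev4 : ∀ᶠ T : ℝ in atTop, 10 * B * 2 ^ (2 * B) * T ^ (-(ε / 2)) ≤ κ₁ / 2 := by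
    have h1 := (tendsto_rpow_neg_atTop (show 0 < ε / 2 by positivity)).const_mul
      (10 * B * 2 ^ (2 * B))
    rw [mul_zero] at h1
    exact h1.eventually_le_const (by positivity)
  have ev6 : ∀ᶠ T : ℝ in atTop, T ^ (-(9 * ε)) ≤ (1 / 2 : ℝ) :=
    (tendsto_rpow_neg_atTop (show 0 < 9 * ε by linarith)).eventually_le_const (by norm_num)
  have ev5 := ev_expU hε 6 (C * Real.exp 1 * Z2) (show 0 < κ₀ / 3 by positivity)
  obtain ⟨T₀, hT₀⟩ := eventually_atTop.1 (((((eventually_ge_atTop (10 : ℝ)).and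
    ev6).and (ev1.and ev2)).and (ev3.and ev4)).and ev5)
  refine ⟨K₀, T₀, by rw [hK₀]; omega, ?_⟩
  intro T r η hT hrB hr1 hη0 hηR
  obtain ⟨⟨⟨⟨hT10, h6⟩, h1, h2⟩, h3, h4⟩, h5⟩ := hT₀ T hT
  have hT0 : 0 < T := by linarith
  have hT1 : 1 ≤ T := by linarith
  have hη1 : η ≤ e := hηR.trans h1
  have hr0 : 0 < r := lt_of_lt_of_le (by positivity) hrB
  have hrlt : r ≤ 1 := by linarith
  have h1r : 1 / r ≤ B := by
    rw [div_le_iff₀ hr0]
    rw [div_le_iff₀ hB0] at hrB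
    linarith
  obtain ⟨δ, hδ⟩ : ∃ δ : ℝ, δ = T ^ (-(1 - 2 * ε)) := ⟨_, rfl⟩
  rw [← hδ] at h3
  have hδ0 : 0 < δ := by rw [hδ]; exact Real.rpow_pos_of_pos hT0 _
  have hδ1 : δ ≤ 1 / 2 := by nlinarith
  have hin := fun L : ℝ => innerU (L := L) hC hd he0.le
    (show e ≤ 1 / 2 - η by linarith) (show 1 / 2 - η ≤ 1 by linarith) hδ0 hδ1 h2
  have hHδ : (T ^ (1 - ε)) ^ 2 * δ ^ 2 = T ^ (2 * ε) := by
    rw [hδ, ← mul_pow, ← Real.rpow_add hT0, ← Real.rpow_natCast, ← Real.rpow_mul hT0.le]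
    congr 1
    push_cast
    ring
  rw [hHδ] at hin
  refine ⟨fun K => (hin (r * Real.log K)).1, ?_⟩
  obtain ⟨X, hX⟩ : ∃ X : ℝ, X = T ^ (1 + 5 * ε) := ⟨_, rfl⟩
  rw [← hX]
  have hX0 : 0 < X := by rw [hX]; exact Real.rpow_pos_of_pos hT0 _
  have hX1 : 1 ≤ X := by rw [hX]; exact Real.one_le_rpow hT1 (by linarith)
  have hXT : X ≤ T ^ 2 := by
    rw [hX]
    calc T ^ (1 + 5 * ε) ≤ T ^ (2 : ℝ) := Real.rpow_le_rpow_of_exponent_le hT1 (by linarith)
      _ = T ^ 2 := by norm_cast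
  have hXr : X ^ r ≤ T ^ (1 - 11 * ε) := by
    rw [hX, ← Real.rpow_mul hT0.le]
    refine Real.rpow_le_rpow_of_exponent_le hT1 ?_
    nlinarith
  have hXrT : X ^ r ≤ T := by
    refine hXr.trans ?_
    calc T ^ (1 - 11 * ε) ≤ T ^ (1 : ℝ) := Real.rpow_le_rpow_of_exponent_le hT1 (by linarith)
      _ = T := Real.rpow_one T
  have hXrδ : X ^ r * δ ≤ 1 / 2 := by
    calc X ^ r * δ ≤ T ^ (1 - 11 * ε) * T ^ (-(1 - 2 * ε)) := by rw [hδ]; gcongr
      _ = T ^ (-(9 * ε)) := by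
          rw [← Real.rpow_add hT0]
          congr 1
          ring
      _ ≤ 1 / 2 := h6
  obtain ⟨c, hc⟩ : ∃ c : ℝ, c = e * (1 + r) + 2 * r * η := ⟨_, rfl⟩
  have hc0 : 0 ≤ c := by rw [hc]; positivity
  have hce : c ≤ 4 * e := by
    rw [hc]
    nlinarith
  obtain ⟨p, hp⟩ : ∃ p : ℝ, p = -((1 + r) / 2) + c := ⟨_, rfl⟩
  have hp1 : -1 ≤ p := by rw [hp]; linarith
  have hp0 : p ≤ 0 := by rw [hp]; linarith
  obtain ⟨E, hE⟩ : ∃ E : ℝ, E = Real.exp (-(T ^ (2 * ε) / 32)) := ⟨_, rfl⟩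
  have hE0 : 0 < E := by rw [hE]; exact Real.exp_pos _
  rw [← hE] at h5 hin
  rw [← hZ2] at hin
  obtain ⟨P, hP⟩ : ∃ P : ℕ → Prop, P = fun K : ℕ => ∃ n : ℕ, |(K : ℝ) ^ r - n| ≤
      δ * (K : ℝ) ^ r := ⟨_, rfl⟩
  have hterm : ∀ K ∈ Finset.Icc (K₀ + 1) ⌊X⌋₊, dv K * (K : ℝ) ^ (-(1 / 2 - r * η)) *
      (∑' n : ℕ, if n = 0 then 0 else dv n * (n : ℝ) ^ (-(1 / 2 - η)) *
        Real.exp (-((T ^ (1 - ε)) ^ 2 * (r * Real.log K - Real.log n) ^ 2 / 4))) ≤
      (if P K then 8 * C ^ 2 * (K : ℝ) ^ p else 0) + C * Real.exp 1 * E * Z2 * T ^ 4 := by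
    intro K hK
    obtain ⟨k1', k2⟩ := Finset.mem_Icc.1 hK
    have k1 : 1 ≤ K := by omega
    have k3 : (1 : ℝ) ≤ K := by exact_mod_cast k1
    have k0 : (0 : ℝ) < K := by linarith
    have k4 : (K : ℝ) ≤ X := (Nat.le_floor_iff hX0.le).1 k2
    have k5 : (K : ℝ) ≤ T ^ 2 := k4.trans hXT
    rw [tsum_eq]
    have hi := (hin (r * Real.log K)).2
    have hx : Real.exp (r * Real.log K) = (K : ℝ) ^ r := by
      rw [Real.rpow_def_of_pos k0, mul_comm]
    rw [Real.exp_add, show 2 * (r * Real.log K) = r * Real.log K + r * Real.log K by ring,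
      Real.exp_add, hx, ← Real.rpow_mul k0.le] at hi
    have hdK0 : 0 ≤ dv K := Nat.cast_nonneg _
    have hdKK : dv K ≤ K := by
      unfold dv
      exact_mod_cast Nat.card_divisors_le_self K
    have hKr0 : 0 < (K : ℝ) ^ r := by positivity
    have hKrX : (K : ℝ) ^ r ≤ X ^ r := by gcongr
    have hcw : ((win ((K : ℝ) ^ r) δ).card : ℝ) ≤ (if P K then 2 else 0) := by
      split_ifs with hPK
      · have := card_win hKr0 hδ0
        have h7 : (K : ℝ) ^ r * δ ≤ 1 / 2 := le_trans (by gcongr) hXrδ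
        linarith
      · have h0 : win ((K : ℝ) ^ r) δ = ∅ := by
          rw [Finset.eq_empty_iff_forall_notMem]
          intro n hn
          apply hPK
          rw [hP]
          exact ⟨n, (mem_win hKr0 hδ0).1 hn⟩
        rw [h0]
        simp
    refine (mul_le_mul_of_nonneg_left hi (by positivity)).trans ?_
    have t1 : dv K * (K : ℝ) ^ (-(1 / 2 - r * η)) * (4 * C * (K : ℝ) ^ (r * (e - (1 / 2 - η)))) ≤
        4 * C ^ 2 * (K : ℝ) ^ p := by
      calc dv K * (K : ℝ) ^ (-(1 / 2 - r * η)) * (4 * C * (K : ℝ) ^ (r * (e - (1 / 2 - η))))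
          ≤ (C * (K : ℝ) ^ e) * (K : ℝ) ^ (-(1 / 2 - r * η)) *
            (4 * C * (K : ℝ) ^ (r * (e - (1 / 2 - η)))) := by
            gcongr
            exact hd K k1
        _ = 4 * C ^ 2 * ((K : ℝ) ^ e * (K : ℝ) ^ (-(1 / 2 - r * η)) *
            (K : ℝ) ^ (r * (e - (1 / 2 - η)))) := by ring
        _ = 4 * C ^ 2 * (K : ℝ) ^ p := by
            rw [← Real.rpow_add k0, ← Real.rpow_add k0, hp, hc]
            congr 2
            ring
    have t3 : dv K * (K : ℝ) ^ (-(1 / 2 - r * η)) *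
        (C * (Real.exp 1 * ((K : ℝ) ^ r * (K : ℝ) ^ r) * E) * Z2) ≤
        C * Real.exp 1 * E * Z2 * T ^ 4 := by
      have u1 : (K : ℝ) ^ (-(1 / 2 - r * η)) ≤ 1 := by
        refine Real.rpow_le_one_of_one_le_of_nonpos k3 ?_
        nlinarith
      have u3 : (K : ℝ) ^ r ≤ T := hKrX.trans hXrT
      calc dv K * (K : ℝ) ^ (-(1 / 2 - r * η)) *
          (C * (Real.exp 1 * ((K : ℝ) ^ r * (K : ℝ) ^ r) * E) * Z2)
          ≤ T ^ 2 * 1 * (C * (Real.exp 1 * (T * T) * E) * Z2) := by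
            gcongr
            exact hdKK.trans k5
        _ = _ := by ring
    obtain ⟨W, hW⟩ : ∃ W : ℝ, W = dv K * (K : ℝ) ^ (-(1 / 2 - r * η)) *
      (4 * C * (K : ℝ) ^ (r * (e - (1 / 2 - η)))) := ⟨_, rfl⟩
    have hW0 : 0 ≤ W := by rw [hW]; positivity
    have t4 : W * ((win ((K : ℝ) ^ r) δ).card : ℝ) ≤
        (if P K then 8 * C ^ 2 * (K : ℝ) ^ p else 0) := by
      refine (mul_le_mul_of_nonneg_left hcw hW0).trans ?_
      split_ifs with hPK
      · rw [hW]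
        linarith
      · rw [mul_zero]
    calc _ = W * ((win ((K : ℝ) ^ r) δ).card : ℝ) +
          dv K * (K : ℝ) ^ (-(1 / 2 - r * η)) *
            (C * (Real.exp 1 * ((K : ℝ) ^ r * (K : ℝ) ^ r) * E) * Z2) := by rw [hW]; ring
      _ ≤ _ := add_le_add t4 t3
  refine (Finset.sum_le_sum hterm).trans ?_
  rw [Finset.sum_add_distrib, ← Finset.sum_filter, ← Finset.mul_sum, Finset.sum_const,
    nsmul_eq_mul]
  have hNle : ((Finset.Icc (K₀ + 1) ⌊X⌋₊).card : ℝ) ≤ T ^ 2 := by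
    rw [Nat.card_Icc]
    refine le_trans ?_ ((Nat.floor_le hX0.le).trans hXT)
    exact_mod_cast (by omega : ⌊X⌋₊ + 1 - (K₀ + 1) ≤ ⌊X⌋₊)
  -- the integers close to a power
  have s1 : ∑ K ∈ (Finset.Icc (K₀ + 1) ⌊X⌋₊).filter P, (K : ℝ) ^ p ≤ κ₁ := by
    obtain ⟨S, hS⟩ : ∃ S : Finset ℕ, S = (Finset.Icc (K₀ + 1) ⌊X⌋₊).filter P := ⟨_, rfl⟩
    rw [← hS]
    have hSm : ∀ K ∈ S, K₀ + 1 ≤ K ∧ (K : ℝ) ≤ X ∧ P K := by
      intro K hK
      rw [hS, Finset.mem_filter, Finset.mem_Icc] at hK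
      exact ⟨hK.1.1, (Nat.le_floor_iff hX0.le).1 hK.1.2, hK.2⟩
    have hch : ∀ K : ℕ, ∃ n : ℕ, P K → |(K : ℝ) ^ r - n| ≤ δ * (K : ℝ) ^ r := by
      intro K
      by_cases hPK : P K
      · have hPK' := hPK
        rw [hP] at hPK'
        obtain ⟨n, hn⟩ := hPK'
        exact ⟨n, fun _ => hn⟩
      · exact ⟨0, fun h => absurd h hPK⟩
    choose nn hnn using hch
    have himg : ∀ n ∈ S.image nn, N₁ < n ∧ (n : ℝ) ≤ 2 * X ^ r := by
      intro n hn
      obtain ⟨K, hK, rfl⟩ := Finset.mem_image.1 hn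
      obtain ⟨k1, k2, k3⟩ := hSm K hK
      have k4 := hnn K k3
      have k0 : (0 : ℝ) < K := by
        exact_mod_cast (by omega : 0 < K)
      have hKr0 : 0 < (K : ℝ) ^ r := by positivity
      obtain ⟨k5, k6⟩ := abs_le.1 k4
      constructor
      · have m1 : (2 * ((N₁ : ℝ) + 1)) ^ B ≤ K := by
          have : (⌈(2 * ((N₁ : ℝ) + 1)) ^ B⌉₊ : ℝ) ≤ K := by
            exact_mod_cast (by omega : ⌈(2 * ((N₁ : ℝ) + 1)) ^ B⌉₊ ≤ K)
          exact (Nat.le_ceil _).trans this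
        have m2 : 2 * ((N₁ : ℝ) + 1) ≤ (K : ℝ) ^ r := by
          have m3 : (1 : ℝ) ≤ K := by exact_mod_cast (by omega : 1 ≤ K)
          calc 2 * ((N₁ : ℝ) + 1) = ((2 * ((N₁ : ℝ) + 1)) ^ B) ^ (1 / B) := by
                rw [← Real.rpow_mul (by positivity), mul_one_div_cancel hB0.ne', Real.rpow_one]
            _ ≤ (K : ℝ) ^ (1 / B) := by gcongr
            _ ≤ (K : ℝ) ^ r := Real.rpow_le_rpow_of_exponent_le m3 hrB
        have m4 : (N₁ : ℝ) < nn K := by nlinarith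
        exact_mod_cast m4
      · have m5 : (K : ℝ) ^ r ≤ X ^ r := by gcongr
        nlinarith
    rw [← Finset.sum_fiberwise_of_maps_to (t := S.image nn)
      (fun K hK => Finset.mem_image_of_mem nn hK)]
    have hfib : ∀ n ∈ S.image nn, ∑ K ∈ S with nn K = n, (K : ℝ) ^ p ≤
        2 * (n : ℝ) ^ (-(1 + 7 * ε)) + 10 * B * δ * (2 * X ^ r) ^ ((1 + p) / r) := by
      intro n hn
      obtain ⟨n1, n2⟩ := himg n hn
      have n3 : 1 ≤ n := by omega
      have n4 : (1 : ℝ) ≤ n := by exact_mod_cast n3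
      have hf := fiber hB hδ0 h3 hr0 hrB hp1 hp0 n3 (S.filter (fun K => nn K = n)) (by
        intro K hK
        rw [Finset.mem_filter] at hK
        obtain ⟨k1, k2, k3⟩ := hSm K hK.1
        refine ⟨by omega, ?_⟩
        have := hnn K k3
        rwa [hK.2] at this)
      refine hf.trans ?_
      have hexp : p / r ≤ -(1 + 7 * ε) := by
        rw [div_le_iff₀ hr0, hp]
        have : c ≤ r * (ε / 100) := by
          have g1 : 4 * e ≤ r * (ε / 100) := by
            have g2 : 1 ≤ r * B := by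
              rw [div_le_iff₀ hB0] at hrB
              exact hrB
            have g3 : 4 * e ≤ 4 * (e * B) * r := by nlinarith
            rw [heB] at g3
            nlinarith
          linarith
        nlinarith
      have hexp2 : 0 ≤ (1 + p) / r := by
        apply div_nonneg _ hr0.le
        linarith
      have q1 : (n : ℝ) ^ (p / r) ≤ (n : ℝ) ^ (-(1 + 7 * ε)) :=
        Real.rpow_le_rpow_of_exponent_le n4 hexp
      have q2 : (n : ℝ) ^ ((1 + p) / r) ≤ (2 * X ^ r) ^ ((1 + p) / r) := by gcongr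
      have q3 : 0 ≤ 10 * B * δ := by positivity
      have q4 := mul_le_mul_of_nonneg_left q2 q3
      linarith
    refine (Finset.sum_le_sum hfib).trans ?_
    rw [Finset.sum_add_distrib, ← Finset.mul_sum, Finset.sum_const, nsmul_eq_mul]
    have v1 : ∑ n ∈ S.image nn, (n : ℝ) ^ (-(1 + 7 * ε)) ≤ κ₁ / 2 / 2 :=
      hN₁ _ fun n hn => (himg n hn).1
    have v2 : ((S.image nn).card : ℝ) ≤ 2 * X ^ r := by
      have hsub : S.image nn ⊆ Finset.Icc 1 ⌊2 * X ^ r⌋₊ := by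
        intro n hn
        obtain ⟨n1, n2⟩ := himg n hn
        rw [Finset.mem_Icc, Nat.le_floor_iff (by positivity)]
        exact ⟨by omega, n2⟩
      have h7 := Finset.card_le_card hsub
      rw [Nat.card_Icc, Nat.add_sub_cancel] at h7
      have h8 := Nat.floor_le (show 0 ≤ 2 * X ^ r by positivity)
      exact le_trans (by exact_mod_cast h7) h8
    have v3 : ((S.image nn).card : ℝ) * (10 * B * δ * (2 * X ^ r) ^ ((1 + p) / r)) ≤ κ₁ / 2 := by
      have hN0 : 0 < 2 * X ^ r := by positivity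
      have hexp3 : (1 + (1 + p) / r) = ((1 + r) / 2 + c) / r := by
        rw [hp]
        field_simp
        ring
      have hexp4 : ((1 + r) / 2 + c) / r ≤ 2 * B := by
        have g1 : (1 + r) / 2 + c ≤ 2 := by linarith
        calc ((1 + r) / 2 + c) / r ≤ 2 / r := by gcongr
          _ = 2 * (1 / r) := by ring
          _ ≤ 2 * B := by linarith
      calc ((S.image nn).card : ℝ) * (10 * B * δ * (2 * X ^ r) ^ ((1 + p) / r))
          ≤ (2 * X ^ r) * (10 * B * δ * (2 * X ^ r) ^ ((1 + p) / r)) := by gcongr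
        _ = 10 * B * δ * ((2 * X ^ r) ^ (1 : ℝ) * (2 * X ^ r) ^ ((1 + p) / r)) := by
            rw [Real.rpow_one]; ring
        _ = 10 * B * δ * (2 * X ^ r) ^ (((1 + r) / 2 + c) / r) := by
            rw [← Real.rpow_add hN0, hexp3]
        _ = 10 * B * δ * (2 ^ (((1 + r) / 2 + c) / r) * X ^ ((1 + r) / 2 + c)) := by
            rw [Real.mul_rpow (by norm_num) (by positivity), ← Real.rpow_mul hX0.le]
            congr 3
            field_simp
        _ ≤ 10 * B * δ * (2 ^ (2 * B) * X ^ ((1 + r) / 2 + c)) := by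
            gcongr
            norm_num
        _ = 10 * B * 2 ^ (2 * B) * (T ^ (-(1 - 2 * ε)) * T ^ ((1 + 5 * ε) * ((1 + r) / 2 + c))) := by
            rw [hδ, hX, ← Real.rpow_mul hT0.le]; ring
        _ ≤ 10 * B * 2 ^ (2 * B) * T ^ (-(ε / 2)) := by
            rw [← Real.rpow_add hT0]
            refine mul_le_mul_of_nonneg_left (Real.rpow_le_rpow_of_exponent_le hT1 ?_)
              (by positivity)
            have g1 : c ≤ 4 * (ε / 1000) := by linarith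
            nlinarith
        _ ≤ κ₁ / 2 := h4
    linarith
  have s3 : T ^ 2 * (C * Real.exp 1 * E * Z2 * T ^ 4) ≤ κ₀ / 3 := by
    calc T ^ 2 * (C * Real.exp 1 * E * Z2 * T ^ 4)
        = C * Real.exp 1 * Z2 * (T ^ (6 : ℝ) * E) := by
          have : T ^ (6 : ℝ) = T ^ 6 := by norm_cast
          rw [this]; ring
      _ ≤ κ₀ / 3 := h5
  have s4 : ((Finset.Icc (K₀ + 1) ⌊X⌋₊).card : ℝ) *
      (C * Real.exp 1 * E * Z2 * T ^ 4) ≤ κ₀ / 3 := by
    calc _ ≤ T ^ 2 * (C * Real.exp 1 * E * Z2 * T ^ 4) := by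
          gcongr
      _ ≤ κ₀ / 3 := s3
  have s5 : 8 * C ^ 2 * ∑ K ∈ (Finset.Icc (K₀ + 1) ⌊X⌋₊).filter P, (K : ℝ) ^ p ≤
      κ₀ / 3 := by
    calc _ ≤ 8 * C ^ 2 * κ₁ := mul_le_mul_of_nonneg_left s1 (by positivity)
      _ = κ₀ / 3 := by
          rw [hκ₁]
          field_simp
  linarith

end Pool.Agent.H63.RU
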