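import Pool.Agent.H63.RU.Inner

/-!
# Module TU: close dilations, the part without need of cancellation
-/

set_option autoImplicit false

open Filter Topology

namespace Pool.Agent.H63.RU

open Pool.Agent.H28.MZ Pool.Agent.H47.RU

lemma small_tail {s κ : ℝ} (hs : 1 < s) (hκ : 0 < κ) :
    ∃ N : ℕ, ∀ A : Finset ℕ, (∀ n ∈ A, N < n) → ∑ n ∈ A, (n : ℝ) ^ (-s) ≤ κ := by
  have h1 : Summable fun n : ℕ => (n : ℝ) ^ (-s) := Real.summable_nat_rpow.2 (by linarith)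
  obtain ⟨S, hS⟩ := summable_iff_vanishing_norm.1 h1 κ hκ
  refine ⟨S.sup id, fun A hA => ?_⟩
  have h2 : Disjoint A S := by
    rw [Finset.disjoint_left]
    intro n hn hnS
    have h3 := hA n hn
    have h4 : n ≤ S.sup id := Finset.le_sup (f := id) hnS
    omega
  exact (le_abs_self _).trans (hS A h2).le

lemma dyadic {C c : ℝ} (hC : 0 < C) (hc : 0 < c) (hc1 : c ≤ 1) (P : ℕ → Prop) [DecidablePred P]
    {J₀ X : ℕ} (hcount : ∀ j : ℕ, J₀ ≤ j → 2 ^ j < X →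
      (((Finset.Icc 1 (2 * 2 ^ j)).filter (fun K : ℕ => 2 ^ j < K ∧ P K)).card : ℝ) ≤
        C * ((2 : ℝ) ^ j) ^ (1 - c)) :
    ∑ K ∈ (Finset.Icc (2 ^ J₀ + 1) X).filter P, (K : ℝ) ^ (-(1 - c / 2)) ≤
      C * (((2 : ℝ) ^ (-(c / 2))) ^ J₀ / (1 - (2 : ℝ) ^ (-(c / 2)))) := by
  obtain ⟨q, hq⟩ : ∃ q : ℝ, q = (2 : ℝ) ^ (-(c / 2)) := ⟨_, rfl⟩
  have hq0 : 0 < q := by rw [hq]; positivity
  have hq1 : q < 1 := by
    rw [hq]
    exact Real.rpow_lt_one_of_one_lt_of_neg (by norm_num) (by linarith)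
  rw [← hq]
  obtain ⟨S, hS⟩ : ∃ S : Finset ℕ, S = (Finset.Icc (2 ^ J₀ + 1) X).filter P := ⟨_, rfl⟩
  rw [← hS]
  have hmem : ∀ K ∈ S, 2 ^ J₀ + 1 ≤ K ∧ K ≤ X ∧ P K := by
    intro K hK
    rw [hS, Finset.mem_filter, Finset.mem_Icc] at hK
    exact ⟨hK.1.1, hK.1.2, hK.2⟩
  have hj : ∀ K ∈ S, 2 ^ (Nat.log 2 (K - 1)) < K ∧ K ≤ 2 * 2 ^ (Nat.log 2 (K - 1)) ∧
      J₀ ≤ Nat.log 2 (K - 1) := by
    intro K hK
    obtain ⟨h1, h2, h3⟩ := hmem K hK
    have h4 : 0 < 2 ^ J₀ := by positivity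
    have h5 : K - 1 ≠ 0 := by omega
    have h6 := Nat.pow_log_le_self 2 h5
    have h7 := Nat.lt_pow_succ_log_self (b := 2) (by norm_num) (K - 1)
    rw [Nat.succ_eq_add_one, pow_succ] at h7
    refine ⟨by omega, by omega, ?_⟩
    exact Nat.le_log_of_pow_le (by norm_num) (by omega)
  have hmaps : ∀ K ∈ S, Nat.log 2 (K - 1) ∈ Finset.Ico J₀ X := by
    intro K hK
    obtain ⟨h1, h2, h3⟩ := hj K hK
    obtain ⟨h4, h5, h6⟩ := hmem K hK
    rw [Finset.mem_Ico]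
    refine ⟨h3, ?_⟩
    have := Nat.lt_two_pow_self (n := Nat.log 2 (K - 1))
    omega
  rw [← Finset.sum_fiberwise_of_maps_to hmaps]
  have hfib : ∀ j ∈ Finset.Ico J₀ X,
      ∑ K ∈ S with Nat.log 2 (K - 1) = j, (K : ℝ) ^ (-(1 - c / 2)) ≤ C * q ^ j := by
    intro j hjm
    rcases Finset.eq_empty_or_nonempty (S.filter (fun K => Nat.log 2 (K - 1) = j)) with h | h
    · rw [h, Finset.sum_empty]
      positivity
    · obtain ⟨K₁, hK₁⟩ := h
      rw [Finset.mem_filter] at hK₁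
      obtain ⟨hK₁S, hK₁j⟩ := hK₁
      obtain ⟨k1, k2, k3⟩ := hj K₁ hK₁S
      rw [hK₁j] at k1 k2 k3
      obtain ⟨k4, k5, k6⟩ := hmem K₁ hK₁S
      have hcnt := hcount j k3 (by omega)
      have hp0 : (0 : ℝ) < (2 : ℝ) ^ j := by positivity
      have hterm : ∀ K ∈ S.filter (fun K => Nat.log 2 (K - 1) = j),
          (K : ℝ) ^ (-(1 - c / 2)) ≤ ((2 : ℝ) ^ j) ^ (-(1 - c / 2)) := by
        intro K hK
        rw [Finset.mem_filter] at hK
        obtain ⟨m1, m2, m3⟩ := hj K hK.1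
        rw [hK.2] at m1
        refine Real.rpow_le_rpow_of_nonpos hp0 ?_ (by linarith)
        exact_mod_cast m1.le
      have hsub : S.filter (fun K => Nat.log 2 (K - 1) = j) ⊆
          (Finset.Icc 1 (2 * 2 ^ j)).filter (fun K : ℕ => 2 ^ j < K ∧ P K) := by
        intro K hK
        rw [Finset.mem_filter] at hK
        obtain ⟨m1, m2, m3⟩ := hj K hK.1
        rw [hK.2] at m1 m2
        rw [Finset.mem_filter, Finset.mem_Icc]
        exact ⟨⟨by omega, m2⟩, m1, (hmem K hK.1).2.2⟩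
      calc ∑ K ∈ S with Nat.log 2 (K - 1) = j, (K : ℝ) ^ (-(1 - c / 2))
          ≤ ∑ K ∈ S with Nat.log 2 (K - 1) = j, ((2 : ℝ) ^ j) ^ (-(1 - c / 2)) :=
            Finset.sum_le_sum hterm
        _ = ((S.filter (fun K => Nat.log 2 (K - 1) = j)).card : ℝ) *
            ((2 : ℝ) ^ j) ^ (-(1 - c / 2)) := by rw [Finset.sum_const, nsmul_eq_mul]
        _ ≤ (C * ((2 : ℝ) ^ j) ^ (1 - c)) * ((2 : ℝ) ^ j) ^ (-(1 - c / 2)) := by
            refine mul_le_mul_of_nonneg_right (le_trans ?_ hcnt) (by positivity)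
            exact_mod_cast Finset.card_le_card hsub
        _ = C * ((2 : ℝ) ^ j) ^ (-(c / 2)) := by
            rw [mul_assoc, ← Real.rpow_add hp0]
            congr 2
            ring
        _ = C * q ^ j := by
            rw [hq, ← Real.rpow_natCast, ← Real.rpow_natCast, ← Real.rpow_mul (by norm_num),
              ← Real.rpow_mul (by norm_num)]
            congr 2
            ring
  refine (Finset.sum_le_sum hfib).trans ?_
  rw [← Finset.mul_sum]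
  exact mul_le_mul_of_nonneg_left (geom_sum_Ico_le_of_lt_one hq0.le hq1) hC.le

theorem pf_TU (hCT : T_CT) : T_TU := by
  intro ε R κ₀ hε hε1 hR hκ₀
  classical
  obtain ⟨Cc, M₀, T₁, hCc, hM₀, hct⟩ := hCT ε hε hε1
  obtain ⟨e, he⟩ : ∃ e : ℝ, e = ε / 1000 := ⟨_, rfl⟩
  have he0 : 0 < e := by rw [he]; positivity
  obtain ⟨C, hC, hd⟩ := Pool.Agent.H89.Cubic.div_bound e he0
  obtain ⟨Z2, hZ2⟩ : ∃ Z2 : ℝ, Z2 = ∑' K : ℕ, (K : ℝ) ^ (-2 : ℝ) := ⟨_, rfl⟩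
  have hZ20 : 0 ≤ Z2 := by
    rw [hZ2]
    exact tsum_nonneg fun n => by positivity
  obtain ⟨κ₁, hκ₁⟩ : ∃ κ₁ : ℝ, κ₁ = κ₀ / 3 / (4 * C ^ 2) := ⟨_, rfl⟩
  have hκ₁0 : 0 < κ₁ := by rw [hκ₁]; positivity
  -- choice of `K₀`
  obtain ⟨N₁, hN₁⟩ := small_tail (s := 1 + ε / 16) (by linarith) hκ₁0
  obtain ⟨q, hq⟩ : ∃ q : ℝ, q = (2 : ℝ) ^ (-(ε / 16 / 2)) := ⟨_, rfl⟩
  have hq0 : 0 < q := by rw [hq]; positivity
  have hq1 : q < 1 := by
    rw [hq]
    exact Real.rpow_lt_one_of_one_lt_of_neg (by norm_num) (by linarith)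
  have ej1 : ∀ᶠ j : ℕ in atTop, Cc * (q ^ j / (1 - q)) ≤ κ₁ := by
    have h1 := ((tendsto_pow_atTop_nhds_zero_of_lt_one hq0.le hq1).div_const (1 - q)).const_mul Cc
    rw [zero_div, mul_zero] at h1
    exact h1.eventually_le_const hκ₁0
  have ej2 : ∀ᶠ j : ℕ in atTop, M₀ ≤ (2 : ℝ) ^ j :=
    (tendsto_pow_atTop_atTop_of_one_lt (by norm_num : (1 : ℝ) < 2)).eventually_ge_atTop M₀
  obtain ⟨J₀, hJ₀⟩ := eventually_atTop.1 ((ej1.and ej2).and (eventually_ge_atTop N₁))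
  have hJN : N₁ ≤ 2 ^ J₀ := (hJ₀ J₀ le_rfl).2.trans (Nat.lt_two_pow_self).le
  have hJ1 := (hJ₀ J₀ le_rfl).1.1
  -- choice of `T₀`
  have ev1 : ∀ᶠ T : ℝ in atTop, R / Real.log T ≤ ε / 1000 :=
    (Real.tendsto_log_atTop.const_div_atTop R).eventually_le_const (by positivity)
  have ev2 : ∀ᶠ T : ℝ in atTop, (8 : ℝ) ≤ T ^ (1 - ε) :=
    (tendsto_rpow_atTop (show 0 < 1 - ε by linarith)).eventually_ge_atTop 8
  have ev3 : ∀ᶠ T : ℝ in atTop, T ^ (-(1 - 2 * ε)) ≤ (1 / 2 : ℝ) :=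
    (tendsto_rpow_neg_atTop (show 0 < 1 - 2 * ε by linarith)).eventually_le_const (by norm_num)
  have ev4 : ∀ᶠ T : ℝ in atTop, 8 * C ^ 2 * T ^ (-ε) ≤ κ₀ / 3 := by
    have h1 := (tendsto_rpow_neg_atTop hε).const_mul (8 * C ^ 2)
    rw [mul_zero] at h1
    exact h1.eventually_le_const (by positivity)
  have ev5 := ev_expU hε 5 (C * Real.exp 1 * Z2) (show 0 < κ₀ / 3 by positivity)
  obtain ⟨T₀, hT₀⟩ := eventually_atTop.1 (((((eventually_ge_atTop (10 : ℝ)).and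
    (eventually_ge_atTop T₁)).and (ev1.and ev2)).and (ev3.and ev4)).and ev5)
  refine ⟨2 ^ J₀, T₀, Nat.one_le_two_pow, ?_⟩
  intro T r η hT hr1' hr2 hη0 hηR
  obtain ⟨⟨⟨⟨hT10, hTT₁⟩, h1, h2⟩, h3, h4⟩, h5⟩ := hT₀ T hT
  have hT0 : 0 < T := by linarith
  have hT1 : 1 ≤ T := by linarith
  have hη1 : η ≤ ε / 1000 := hηR.trans h1
  have hr1 : 1 < r := by
    have : 0 < T ^ (-1 + 3 * ε) := Real.rpow_pos_of_pos hT0 _
    linarith
  obtain ⟨δ, hδ⟩ : ∃ δ : ℝ, δ = T ^ (-(1 - 2 * ε)) := ⟨_, rfl⟩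
  rw [← hδ] at h3
  have hδ0 : 0 < δ := by rw [hδ]; exact Real.rpow_pos_of_pos hT0 _
  have hin := fun L : ℝ => innerU (L := L) hC hd he0.le
    (show e ≤ 1 / 2 - η by rw [he]; linarith) (show 1 / 2 - η ≤ 1 by linarith) hδ0 h3 h2
  have hHδ : (T ^ (1 - ε)) ^ 2 * δ ^ 2 = T ^ (2 * ε) := by
    rw [hδ, ← mul_pow, ← Real.rpow_add hT0, ← Real.rpow_natCast, ← Real.rpow_mul hT0.le]
    congr 1
    push_cast
    ring
  rw [hHδ] at hin
  refine ⟨fun K => (hin (r * Real.log K)).1, ?_⟩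
  obtain ⟨κ, hκ⟩ : ∃ κ : ℝ, κ = (2 * r / (1 + r) - 4 * ε) * (1 / r) := ⟨_, rfl⟩
  have hKm : (T ^ (2 * r / (1 + r) - 4 * ε)) ^ (1 / r) = T ^ κ := by
    rw [← Real.rpow_mul hT0.le, hκ]
  rw [hKm]
  have hr0 : 0 < r := by linarith
  have hκ2 : κ = 2 / (1 + r) - 4 * ε / r := by
    rw [hκ]
    field_simp
  have hκ1 : κ ≤ 1 := by
    rw [hκ2]
    have g1 : 2 / (1 + r) ≤ 1 := by rw [div_le_one (by linarith)]; linarith
    have g2 : 0 ≤ 4 * ε / r := by positivity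
    linarith
  have hKT : T ^ κ ≤ T := by
    calc T ^ κ ≤ T ^ (1 : ℝ) := Real.rpow_le_rpow_of_exponent_le hT1 hκ1
      _ = T := Real.rpow_one T
  have hK0 : 0 < T ^ κ := Real.rpow_pos_of_pos hT0 _
  obtain ⟨g, hg⟩ : ∃ g : ℝ, g = (r - 1) / 2 + (e * (1 + r) + 2 * r * η) := ⟨_, rfl⟩
  have hg0 : 0 ≤ g := by
    rw [hg]
    have : 0 ≤ e * (1 + r) + 2 * r * η := by positivity
    linarith
  obtain ⟨p, hp⟩ : ∃ p : ℝ, p = -((1 + r) / 2) + (e * (1 + r) + 2 * r * η) := ⟨_, rfl⟩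
  have hsm : e * (1 + r) + 2 * r * η ≤ ε / 100 := by
    rw [he]
    nlinarith
  obtain ⟨E, hE⟩ : ∃ E : ℝ, E = Real.exp (-(T ^ (2 * ε) / 32)) := ⟨_, rfl⟩
  have hE0 : 0 < E := by rw [hE]; exact Real.exp_pos _
  rw [← hE] at h5 hin
  rw [← hZ2] at hin
  obtain ⟨P, hP⟩ : ∃ P : ℕ → Prop, P = fun K : ℕ => ∃ n : ℕ, |(K : ℝ) ^ r - n| ≤
      T ^ (-1 + 2 * ε) * (K : ℝ) ^ r := ⟨_, rfl⟩
  have hδ' : T ^ (-1 + 2 * ε) = δ := by
    rw [hδ]
    congr 1
    ring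
  have hterm : ∀ K ∈ Finset.Icc (2 ^ J₀ + 1) ⌊T ^ κ⌋₊, dv K * (K : ℝ) ^ (-(1 / 2 - r * η)) *
      (∑' n : ℕ, if n = 0 then 0 else dv n * (n : ℝ) ^ (-(1 / 2 - η)) *
        Real.exp (-((T ^ (1 - ε)) ^ 2 * (r * Real.log K - Real.log n) ^ 2 / 4))) ≤
      (if P K then 4 * C ^ 2 * (K : ℝ) ^ p else 0) +
        (8 * C ^ 2 * δ * (T ^ κ) ^ g + C * Real.exp 1 * E * Z2 * T ^ 4) := by
    intro K hK
    obtain ⟨k1', k2⟩ := Finset.mem_Icc.1 hK
    have k1 : 1 ≤ K := by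
      have : 0 < 2 ^ J₀ := by positivity
      omega
    have k3 : (1 : ℝ) ≤ K := by exact_mod_cast k1
    have k0 : (0 : ℝ) < K := by linarith
    have k4 : (K : ℝ) ≤ T ^ κ := (Nat.le_floor_iff hK0.le).1 k2
    have k5 : (K : ℝ) ≤ T := k4.trans hKT
    rw [tsum_eq]
    have hi := (hin (r * Real.log K)).2
    have hx : Real.exp (r * Real.log K) = (K : ℝ) ^ r := by
      rw [Real.rpow_def_of_pos k0, mul_comm]
    rw [Real.exp_add, show 2 * (r * Real.log K) = r * Real.log K + r * Real.log K by ring,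
      Real.exp_add, hx, ← Real.rpow_mul k0.le] at hi
    have hdK0 : 0 ≤ dv K := Nat.cast_nonneg _
    have hdKK : dv K ≤ K := by
      unfold dv
      exact_mod_cast Nat.card_divisors_le_self K
    have hKr0 : 0 < (K : ℝ) ^ r := by positivity
    have hcw : ((win ((K : ℝ) ^ r) δ).card : ℝ) ≤ (if P K then 1 else 0) + 2 * (K : ℝ) ^ r * δ := by
      split_ifs with hPK
      · have := card_win hKr0 hδ0
        linarith
      · have h0 : win ((K : ℝ) ^ r) δ = ∅ := by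
          rw [Finset.eq_empty_iff_forall_notMem]
          intro n hn
          apply hPK
          rw [hP]
          refine ⟨n, ?_⟩
          rw [hδ']
          exact (mem_win hKr0 hδ0).1 hn
        rw [h0]
        simp only [Finset.card_empty, Nat.cast_zero]
        positivity
    refine (mul_le_mul_of_nonneg_left hi (by positivity)).trans ?_
    have t1 : dv K * (K : ℝ) ^ (-(1 / 2 - r * η)) * (4 * C * (K : ℝ) ^ (r * (e - (1 / 2 - η)))) ≤
        4 * C ^ 2 * (K : ℝ) ^ p := by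
      calc dv K * (K : ℝ) ^ (-(1 / 2 - r * η)) * (4 * C * (K : ℝ) ^ (r * (e - (1 / 2 - η))))
          ≤ (C * (K : ℝ) ^ e) * (K : ℝ) ^ (-(1 / 2 - r * η)) *
            (4 * C * (K : ℝ) ^ (r * (e - (1 / 2 - η)))) := by
            gcongr
            exact hd K k1
        _ = 4 * C ^ 2 * ((K : ℝ) ^ e * (K : ℝ) ^ (-(1 / 2 - r * η)) *
            (K : ℝ) ^ (r * (e - (1 / 2 - η)))) := by ring
        _ = 4 * C ^ 2 * (K : ℝ) ^ p := by
            rw [← Real.rpow_add k0, ← Real.rpow_add k0, hp]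
            congr 2
            ring
    have t2 : dv K * (K : ℝ) ^ (-(1 / 2 - r * η)) * (4 * C * (K : ℝ) ^ (r * (e - (1 / 2 - η)))) *
        (2 * (K : ℝ) ^ r * δ) ≤ 8 * C ^ 2 * δ * (T ^ κ) ^ g := by
      calc dv K * (K : ℝ) ^ (-(1 / 2 - r * η)) * (4 * C * (K : ℝ) ^ (r * (e - (1 / 2 - η)))) *
            (2 * (K : ℝ) ^ r * δ)
          ≤ 4 * C ^ 2 * (K : ℝ) ^ p * (2 * (K : ℝ) ^ r * δ) := by gcongr
        _ = 8 * C ^ 2 * δ * ((K : ℝ) ^ p * (K : ℝ) ^ r) := by ring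
        _ = 8 * C ^ 2 * δ * (K : ℝ) ^ g := by
            rw [← Real.rpow_add k0, hg, hp]
            congr 2
            ring
        _ ≤ _ := by gcongr
    have t3 : dv K * (K : ℝ) ^ (-(1 / 2 - r * η)) *
        (C * (Real.exp 1 * ((K : ℝ) ^ r * (K : ℝ) ^ r) * E) * Z2) ≤
        C * Real.exp 1 * E * Z2 * T ^ 4 := by
      have u1 : (K : ℝ) ^ (-(1 / 2 - r * η)) ≤ 1 := by
        refine Real.rpow_le_one_of_one_le_of_nonpos k3 ?_
        nlinarith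
      have u2 : (K : ℝ) ^ r * (K : ℝ) ^ r ≤ T ^ 3 := by
        rw [← Real.rpow_add k0]
        calc (K : ℝ) ^ (r + r) ≤ (K : ℝ) ^ (3 : ℝ) :=
              Real.rpow_le_rpow_of_exponent_le k3 (by linarith)
          _ ≤ T ^ (3 : ℝ) := by gcongr
          _ = T ^ 3 := by norm_cast
      calc dv K * (K : ℝ) ^ (-(1 / 2 - r * η)) *
          (C * (Real.exp 1 * ((K : ℝ) ^ r * (K : ℝ) ^ r) * E) * Z2)
          ≤ T * 1 * (C * (Real.exp 1 * T ^ 3 * E) * Z2) := by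
            gcongr
            exact hdKK.trans k5
        _ = _ := by ring
    obtain ⟨W, hW⟩ : ∃ W : ℝ, W = dv K * (K : ℝ) ^ (-(1 / 2 - r * η)) *
      (4 * C * (K : ℝ) ^ (r * (e - (1 / 2 - η)))) := ⟨_, rfl⟩
    have hW0 : 0 ≤ W := by rw [hW]; positivity
    have t4 : W * ((win ((K : ℝ) ^ r) δ).card : ℝ) ≤
        (if P K then 4 * C ^ 2 * (K : ℝ) ^ p else 0) + 8 * C ^ 2 * δ * (T ^ κ) ^ g := by
      refine (mul_le_mul_of_nonneg_left hcw hW0).trans ?_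
      rw [mul_add]
      refine add_le_add ?_ ?_
      · split_ifs with hPK
        · rw [mul_one, hW]
          exact t1
        · rw [mul_zero]
      · rw [hW]
        exact t2
    calc _ = W * ((win ((K : ℝ) ^ r) δ).card : ℝ) +
          dv K * (K : ℝ) ^ (-(1 / 2 - r * η)) *
            (C * (Real.exp 1 * ((K : ℝ) ^ r * (K : ℝ) ^ r) * E) * Z2) := by rw [hW]; ring
      _ ≤ ((if P K then 4 * C ^ 2 * (K : ℝ) ^ p else 0) + 8 * C ^ 2 * δ * (T ^ κ) ^ g) +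
          C * Real.exp 1 * E * Z2 * T ^ 4 := add_le_add t4 t3
      _ = _ := by ring
  refine (Finset.sum_le_sum hterm).trans ?_
  rw [Finset.sum_add_distrib, ← Finset.sum_filter, ← Finset.mul_sum, Finset.sum_const,
    nsmul_eq_mul]
  have hNle : ((Finset.Icc (2 ^ J₀ + 1) ⌊T ^ κ⌋₊).card : ℝ) ≤ T ^ κ := by
    rw [Nat.card_Icc]
    refine le_trans ?_ (Nat.floor_le hK0.le)
    exact_mod_cast (by omega : ⌊T ^ κ⌋₊ + 1 - (2 ^ J₀ + 1) ≤ ⌊T ^ κ⌋₊)
  -- the integers close to a power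
  have s1 : ∑ K ∈ (Finset.Icc (2 ^ J₀ + 1) ⌊T ^ κ⌋₊).filter P, (K : ℝ) ^ p ≤ κ₁ := by
    have hone : ∀ K ∈ (Finset.Icc (2 ^ J₀ + 1) ⌊T ^ κ⌋₊).filter P, (1 : ℝ) ≤ K := by
      intro K hK
      rw [Finset.mem_filter, Finset.mem_Icc] at hK
      exact_mod_cast (by omega : 1 ≤ K)
    rcases le_or_gt (1 + ε / 4) r with hr | hr
    · refine le_trans (Finset.sum_le_sum (g := fun K : ℕ => (K : ℝ) ^ (-(1 + ε / 16)))
        fun K hK => ?_) (hN₁ _ ?_)
      · refine Real.rpow_le_rpow_of_exponent_le (hone K hK) ?_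
        rw [hp]
        linarith
      · intro K hK
        rw [Finset.mem_filter, Finset.mem_Icc] at hK
        omega
    · refine le_trans (Finset.sum_le_sum (g := fun K : ℕ => (K : ℝ) ^ (-(1 - ε / 16 / 2)))
        fun K hK => ?_) ?_
      · refine Real.rpow_le_rpow_of_exponent_le (hone K hK) ?_
        rw [hp]
        linarith
      · have hcount : ∀ j : ℕ, J₀ ≤ j → 2 ^ j < ⌊T ^ κ⌋₊ →
            (((Finset.Icc 1 (2 * 2 ^ j)).filter (fun K : ℕ => 2 ^ j < K ∧ P K)).card : ℝ) ≤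
              Cc * ((2 : ℝ) ^ j) ^ (1 - ε / 16) := by
          intro j hj hjX
          have hjM := (hJ₀ j hj).1.2
          have hjT : (2 : ℝ) ^ j ≤ T ^ (1 - 3 * ε) := by
            have g1 : ((2 ^ j : ℕ) : ℝ) ≤ T ^ κ := (Nat.le_floor_iff hK0.le).1 hjX.le
            push_cast at g1
            refine g1.trans (Real.rpow_le_rpow_of_exponent_le hT1 ?_)
            rw [hκ2]
            have g2 : 2 / (1 + r) ≤ 1 := by rw [div_le_one (by linarith)]; linarith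
            have g3 : 3 * ε ≤ 4 * ε / r := by
              rw [le_div_iff₀ hr0]
              nlinarith
            linarith
          have h := hct T r ((2 : ℝ) ^ j) hTT₁ hr1' hr.le hjM hjT
          refine le_trans (le_of_eq ?_) h
          congr 1
          have hfl : ⌊2 * (2 : ℝ) ^ j⌋₊ = 2 * 2 ^ j := by
            have : 2 * (2 : ℝ) ^ j = ((2 * 2 ^ j : ℕ) : ℝ) := by push_cast; ring
            rw [this, Nat.floor_natCast]
          rw [hfl]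
          congr 1
          refine Finset.filter_congr fun K _ => ?_
          rw [hP]
          refine and_congr ?_ Iff.rfl
          constructor
          · intro h
            exact_mod_cast h
          · intro h
            exact_mod_cast h
        refine (dyadic hCc (by positivity) (by linarith) P hcount).trans ?_
        rw [← hq]
        exact hJ1
  have s2 : T ^ κ * (8 * C ^ 2 * δ * (T ^ κ) ^ g) ≤ κ₀ / 3 := by
    calc T ^ κ * (8 * C ^ 2 * δ * (T ^ κ) ^ g)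
        = 8 * C ^ 2 * (T ^ κ * T ^ (-(1 - 2 * ε)) * T ^ (κ * g)) := by
          rw [hδ, ← Real.rpow_mul hT0.le]; ring
      _ = 8 * C ^ 2 * T ^ (κ + -(1 - 2 * ε) + κ * g) := by
          rw [← Real.rpow_add hT0, ← Real.rpow_add hT0]
      _ ≤ 8 * C ^ 2 * T ^ (-ε) := by
          refine mul_le_mul_of_nonneg_left (Real.rpow_le_rpow_of_exponent_le hT1 ?_) (by positivity)
          have w1 : κ * ((1 + r) / 2) = 1 - 2 * ε - 2 * ε * (1 / r) := by
            rw [hκ2]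
            field_simp
            ring
          have w2 : 2 / 3 ≤ 1 / r := by
            rw [div_le_div_iff₀ (by norm_num) hr0]
            linarith
          have w3 : 0 ≤ e * (1 + r) + 2 * r * η := by positivity
          have w5 : κ * (e * (1 + r) + 2 * r * η) ≤ ε / 100 := by
            calc κ * (e * (1 + r) + 2 * r * η) ≤ 1 * (e * (1 + r) + 2 * r * η) :=
                  mul_le_mul_of_nonneg_right hκ1 w3
              _ ≤ ε / 100 := by linarith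
          have w6 : κ + -(1 - 2 * ε) + κ * g = κ * ((1 + r) / 2) +
              κ * (e * (1 + r) + 2 * r * η) - (1 - 2 * ε) := by
            rw [hg]; ring
          rw [w6, w1]
          nlinarith
      _ ≤ κ₀ / 3 := h4
  have s3 : T ^ κ * (C * Real.exp 1 * E * Z2 * T ^ 4) ≤ κ₀ / 3 := by
    calc T ^ κ * (C * Real.exp 1 * E * Z2 * T ^ 4) ≤ T * (C * Real.exp 1 * E * Z2 * T ^ 4) := by
          gcongr
      _ = C * Real.exp 1 * Z2 * (T ^ (5 : ℝ) * E) := by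
          have : T ^ (5 : ℝ) = T ^ 5 := by norm_cast
          rw [this]; ring
      _ ≤ κ₀ / 3 := h5
  have s4 : ((Finset.Icc (2 ^ J₀ + 1) ⌊T ^ κ⌋₊).card : ℝ) *
      (8 * C ^ 2 * δ * (T ^ κ) ^ g + C * Real.exp 1 * E * Z2 * T ^ 4) ≤ κ₀ / 3 + κ₀ / 3 := by
    calc _ ≤ T ^ κ * (8 * C ^ 2 * δ * (T ^ κ) ^ g + C * Real.exp 1 * E * Z2 * T ^ 4) := by
          gcongr
      _ = T ^ κ * (8 * C ^ 2 * δ * (T ^ κ) ^ g) + T ^ κ * (C * Real.exp 1 * E * Z2 * T ^ 4) := by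
          ring
      _ ≤ κ₀ / 3 + κ₀ / 3 := by linarith
  have s5 : 4 * C ^ 2 * ∑ K ∈ (Finset.Icc (2 ^ J₀ + 1) ⌊T ^ κ⌋₊).filter P, (K : ℝ) ^ p ≤
      κ₀ / 3 := by
    calc _ ≤ 4 * C ^ 2 * κ₁ := mul_le_mul_of_nonneg_left s1 (by positivity)
      _ = κ₀ / 3 := by
          rw [hκ₁]
          field_simp
  linarith

end Pool.Agent.H63.RU
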