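import Pool.Agent.H63.PZ.TV
import Pool.Agent.H47.RU.Targets

/-!
# The sum over a short window, with the number of terms in the window
-/

set_option autoImplicit false

open Filter Topology

namespace Pool.Agent.H63.RU

open Pool.Agent.H28.MZ
open Pool.Agent.H63.PZ.TV (gauss_le)

/-- the integers close to `x` -/
noncomputable def win (x δ : ℝ) : Finset ℕ := Finset.Icc ⌈x * (1 - δ)⌉₊ ⌊x * (1 + δ)⌋₊

lemma mem_win {x δ : ℝ} (hx : 0 < x) (hδ : 0 < δ) {n : ℕ} :
    n ∈ win x δ ↔ |x - n| ≤ δ * x := by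
  rw [win, Finset.mem_Icc, Nat.ceil_le, Nat.le_floor_iff (by positivity), abs_le]
  constructor
  · rintro ⟨h1, h2⟩
    constructor <;> nlinarith
  · rintro ⟨h1, h2⟩
    constructor <;> nlinarith

lemma card_win {x δ : ℝ} (hx : 0 < x) (hδ : 0 < δ) :
    ((win x δ).card : ℝ) ≤ 2 * x * δ + 1 := by
  rw [win, Nat.card_Icc]
  rcases le_total ⌈x * (1 - δ)⌉₊ (⌊x * (1 + δ)⌋₊ + 1) with h | h
  · rw [Nat.cast_sub h]
    push_cast
    have g1 := Nat.floor_le (show 0 ≤ x * (1 + δ) by positivity)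
    have g2 := Nat.le_ceil (x * (1 - δ))
    nlinarith
  · rw [Nat.sub_eq_zero_of_le h]
    push_cast
    positivity

lemma innerU {C e a δ H L : ℝ} (hC : 0 < C)
    (h1 : ∀ n : ℕ, 1 ≤ n → dv n ≤ C * (n : ℝ) ^ e)
    (he0 : 0 ≤ e) (hea : e ≤ a) (ha1 : a ≤ 1)
    (hδ0 : 0 < δ) (hδ : δ ≤ 1 / 2) (hH : 8 ≤ H) :
    Summable (fun n : ℕ => dv n * (n : ℝ) ^ (-a) *
      Real.exp (-(H ^ 2 * (L - Real.log n) ^ 2 / 4))) ∧
    ∑' n : ℕ, dv n * (n : ℝ) ^ (-a) * Real.exp (-(H ^ 2 * (L - Real.log n) ^ 2 / 4)) ≤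
      (win (Real.exp L) δ).card * (4 * C * Real.exp L ^ (e - a)) +
        C * (Real.exp (1 + 2 * L) * Real.exp (-(H ^ 2 * δ ^ 2 / 32))) *
          ∑' n : ℕ, (n : ℝ) ^ (-2 : ℝ) := by
  have ha0 : 0 ≤ a := he0.trans hea
  have he1 : e ≤ 1 := hea.trans ha1
  have hx0 : 0 < Real.exp L := Real.exp_pos L
  obtain ⟨x, hx⟩ : ∃ x : ℝ, x = Real.exp L := ⟨_, rfl⟩
  have hlx : Real.log x = L := by rw [hx, Real.log_exp]
  rw [← hx] at hx0
  have hS2 : Summable fun n : ℕ => (n : ℝ) ^ (-2 : ℝ) := Real.summable_nat_rpow.2 (by norm_num)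
  obtain ⟨f, hf⟩ : ∃ f : ℕ → ℝ, f = fun n : ℕ => dv n * (n : ℝ) ^ (-a) *
      Real.exp (-(H ^ 2 * (L - Real.log n) ^ 2 / 4)) := ⟨_, rfl⟩
  have hdv0 : ∀ n, 0 ≤ dv n := fun n => Nat.cast_nonneg _
  have hf0 : ∀ n, 0 ≤ f n := by
    intro n
    rw [hf]
    have := hdv0 n
    positivity
  have hfz : f 0 = 0 := by
    rw [hf]
    simp [dv]
  have hexp4 : ∀ n : ℕ, Real.exp (-(H ^ 2 * (L - Real.log n) ^ 2 / 4)) =
      Real.exp (-(H ^ 2 * (L - Real.log n) ^ 2 / 8)) *
        Real.exp (-(H ^ 2 * (L - Real.log n) ^ 2 / 8)) := by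
    intro n
    rw [← Real.exp_add]
    congr 1
    ring
  have hpre : ∀ n : ℕ, 1 ≤ n → dv n * (n : ℝ) ^ (-a) ≤ C := by
    intro n hn
    have hn1 : (1 : ℝ) ≤ n := by exact_mod_cast hn
    have hn0 : (0 : ℝ) < n := by linarith
    calc dv n * (n : ℝ) ^ (-a) ≤ C * (n : ℝ) ^ e * (n : ℝ) ^ (-a) := by
          gcongr
          exact h1 n hn
      _ = C * (n : ℝ) ^ (e - a) := by
          rw [mul_assoc, ← Real.rpow_add hn0]
          congr 2
      _ ≤ C * 1 := by
          gcongr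
          exact Real.rpow_le_one_of_one_le_of_nonpos hn1 (by linarith)
      _ = C := mul_one _
  have hfs : Summable f := by
    refine Summable.of_nonneg_of_le hf0 (fun n => ?_) (hS2.mul_left (C * Real.exp (1 + 2 * L)))
    rcases Nat.eq_zero_or_pos n with rfl | hn
    · rw [hfz]
      positivity
    · rw [hf]
      have h3 := gauss_le (L := L) hH hn
      have h4 : Real.exp (-(H ^ 2 * (L - Real.log n) ^ 2 / 4)) ≤
          Real.exp (-(H ^ 2 * (L - Real.log n) ^ 2 / 8)) := by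
        apply Real.exp_le_exp.2
        have : 0 ≤ H ^ 2 * (L - Real.log n) ^ 2 := by positivity
        linarith
      calc dv n * (n : ℝ) ^ (-a) * Real.exp (-(H ^ 2 * (L - Real.log n) ^ 2 / 4))
          ≤ C * (Real.exp (1 + 2 * L) * (n : ℝ) ^ (-2 : ℝ)) := by
            gcongr
            · exact hpre n hn
            · exact h4.trans h3
        _ = _ := by ring
  obtain ⟨E, hE⟩ : ∃ E : ℝ, E = Real.exp (-(H ^ 2 * δ ^ 2 / 32)) := ⟨_, rfl⟩
  have hE0 : 0 < E := by rw [hE]; exact Real.exp_pos _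
  obtain ⟨B, hB⟩ : ∃ B : ℝ, B = 4 * C * x ^ (e - a) := ⟨_, rfl⟩
  have hB0 : 0 ≤ B := by
    rw [hB]
    positivity
  obtain ⟨A, hA⟩ : ∃ A : Finset ℕ, A = win x δ := ⟨_, rfl⟩
  have hmemA : ∀ n : ℕ, n ∈ A ↔ x * (1 - δ) ≤ n ∧ (n : ℝ) ≤ x * (1 + δ) := by
    intro n
    rw [hA, win, Finset.mem_Icc, Nat.ceil_le, Nat.le_floor_iff (by positivity)]
  -- bound in the window
  have hwin : ∀ n : ℕ, 1 ≤ n → n ∈ A → f n ≤ B := by
    intro n hn hnA
    obtain ⟨g1, g2⟩ := (hmemA n).1 hnA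
    have hn1 : (1 : ℝ) ≤ n := by exact_mod_cast hn
    have hn0 : (0 : ℝ) < n := by linarith
    have g3 : x / 2 ≤ n := by nlinarith
    have g4 : (n : ℝ) ≤ 2 * x := by nlinarith
    have g5 : (n : ℝ) ^ (-a) ≤ 2 * x ^ (-a) := by
      calc (n : ℝ) ^ (-a) ≤ (x / 2) ^ (-a) :=
            Real.rpow_le_rpow_of_nonpos (by positivity) g3 (by linarith)
        _ = 2 ^ a * x ^ (-a) := by
            rw [Real.div_rpow hx0.le (by norm_num), Real.rpow_neg (by norm_num : (0 : ℝ) ≤ 2),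
              div_inv_eq_mul, mul_comm]
        _ ≤ 2 ^ (1 : ℝ) * x ^ (-a) := by
            gcongr
            norm_num
        _ = 2 * x ^ (-a) := by rw [Real.rpow_one]
    have g6 : Real.exp (-(H ^ 2 * (L - Real.log n) ^ 2 / 4)) ≤ 1 := by
      rw [Real.exp_le_one_iff]
      have : 0 ≤ H ^ 2 * (L - Real.log n) ^ 2 := by positivity
      linarith
    have g7 : (n : ℝ) ^ e ≤ 2 * x ^ e := by
      calc (n : ℝ) ^ e ≤ (2 * x) ^ e := by gcongr
        _ = 2 ^ e * x ^ e := Real.mul_rpow (by norm_num) hx0.le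
        _ ≤ 2 ^ (1 : ℝ) * x ^ e := by
            gcongr
            norm_num
        _ = 2 * x ^ e := by rw [Real.rpow_one]
    rw [hf, hB]
    calc dv n * (n : ℝ) ^ (-a) * Real.exp (-(H ^ 2 * (L - Real.log n) ^ 2 / 4))
        ≤ (C * (2 * x ^ e)) * (2 * x ^ (-a)) * 1 := by
          gcongr
          exact (h1 n hn).trans (by gcongr)
      _ = 4 * C * (x ^ e * x ^ (-a)) := by ring
      _ = 4 * C * x ^ (e - a) := by
          rw [← Real.rpow_add hx0]
          rfl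
  -- bound outside the window
  have hout : ∀ n : ℕ, 1 ≤ n → n ∉ A → f n ≤ C * (Real.exp (1 + 2 * L) * E) * (n : ℝ) ^ (-2 : ℝ) := by
    intro n hn hnA
    have hn1 : (1 : ℝ) ≤ n := by exact_mod_cast hn
    have hn0 : (0 : ℝ) < n := by linarith
    have hy : δ / 2 ≤ |L - Real.log n| := by
      rw [hmemA, not_and_or, not_le, not_le] at hnA
      rcases hnA with h | h
      · -- n < x (1 - δ)
        have g1 : Real.log n ≤ Real.log (x * (1 - δ)) := Real.log_le_log hn0 h.le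
        rw [Real.log_mul hx0.ne' (by linarith), hlx] at g1
        have g2 : Real.log (1 - δ) ≤ -δ := by
          have := Real.log_le_sub_one_of_pos (show 0 < 1 - δ by linarith)
          linarith
        refine le_trans ?_ (le_abs_self _)
        linarith
      · have g1 : Real.log (x * (1 + δ)) ≤ Real.log n := Real.log_le_log (by positivity) h.le
        rw [Real.log_mul hx0.ne' (by linarith), hlx] at g1
        have g2 : δ / 2 ≤ Real.log (1 + δ) := by
          have g3 := Real.one_sub_inv_le_log_of_pos (show 0 < 1 + δ by linarith)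
          have g4 : δ / 2 ≤ 1 - (1 + δ)⁻¹ := by
            rw [show 1 - (1 + δ)⁻¹ = δ / (1 + δ) by field_simp; ring]
            exact div_le_div_of_nonneg_left hδ0.le (by linarith) (by linarith)
          linarith
        rw [abs_sub_comm]
        refine le_trans ?_ (le_abs_self _)
        linarith
    have hy2 : δ ^ 2 / 4 ≤ (L - Real.log n) ^ 2 := by
      rw [← sq_abs (L - Real.log n)]
      nlinarith [abs_nonneg (L - Real.log n)]
    have h8 : Real.exp (-(H ^ 2 * (L - Real.log n) ^ 2 / 8)) ≤ E := by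
      rw [hE]
      apply Real.exp_le_exp.2
      have := mul_le_mul_of_nonneg_left hy2 (sq_nonneg H)
      linarith
    rw [hf]
    calc dv n * (n : ℝ) ^ (-a) * Real.exp (-(H ^ 2 * (L - Real.log n) ^ 2 / 4))
        ≤ C * ((Real.exp (1 + 2 * L) * (n : ℝ) ^ (-2 : ℝ)) * E) := by
          rw [hexp4]
          gcongr
          · exact hpre n hn
          · exact gauss_le hH hn
      _ = _ := by ring
  have hg : ∀ n : ℕ, f n ≤ (if n ∈ A then B else 0) +
      C * (Real.exp (1 + 2 * L) * E) * (n : ℝ) ^ (-2 : ℝ) := by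
    intro n
    have hp : 0 ≤ C * (Real.exp (1 + 2 * L) * E) * (n : ℝ) ^ (-2 : ℝ) := by positivity
    rcases Nat.eq_zero_or_pos n with rfl | hn
    · rw [hfz]
      split_ifs <;> linarith
    · by_cases hnA : n ∈ A
      · rw [if_pos hnA]
        linarith [hwin n hn hnA]
      · rw [if_neg hnA]
        linarith [hout n hn hnA]
  have hsA : HasSum (fun n : ℕ => if n ∈ A then B else 0) (∑ n ∈ A, B) := by
    have h3 : HasSum (fun n : ℕ => if n ∈ A then B else 0) (∑ n ∈ A, if n ∈ A then B else 0) :=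
      hasSum_sum_of_ne_finset_zero (fun n hn => if_neg hn)
    have h4 : (∑ n ∈ A, if n ∈ A then B else 0) = ∑ n ∈ A, B :=
      Finset.sum_congr rfl fun n hn => if_pos hn
    rwa [h4] at h3
  refine ⟨hf ▸ hfs, ?_⟩
  have hfin : ∑' n, f n ≤ (∑ n ∈ A, B) + C * (Real.exp (1 + 2 * L) * E) * ∑' n : ℕ, (n : ℝ) ^ (-2 : ℝ) := by
    have hs3 := hS2.mul_left (C * (Real.exp (1 + 2 * L) * E))
    refine (hfs.tsum_le_tsum hg (hsA.summable.add hs3)).trans ?_
    rw [hsA.summable.tsum_add hs3, hsA.tsum_eq, tsum_mul_left]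
  rw [Finset.sum_const, nsmul_eq_mul] at hfin
  rw [← hx, ← hE, ← hB, ← hA]
  rw [hf] at hfin
  linarith

lemma ev_expU {ε : ℝ} (hε : 0 < ε) (k M : ℝ) {κ : ℝ} (hκ : 0 < κ) :
    ∀ᶠ T : ℝ in atTop, M * (T ^ k * Real.exp (-(T ^ (2 * ε) / 32))) ≤ κ := by
  have h1 := tendsto_rpow_mul_exp_neg_mul_atTop_nhds_zero (k / (2 * ε)) (1 / 32) (by norm_num)
  have h2 := h1.comp (tendsto_rpow_atTop (show 0 < 2 * ε by positivity))
  have h3 := h2.const_mul M
  rw [mul_zero] at h3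
  filter_upwards [h3.eventually_le_const hκ, eventually_gt_atTop 0] with T hT hT0
  simp only [Function.comp] at hT
  rw [← Real.rpow_mul hT0.le, show 2 * ε * (k / (2 * ε)) = k by field_simp] at hT
  rw [show -(T ^ (2 * ε) / 32) = -(1 / 32) * T ^ (2 * ε) by ring]
  exact hT

lemma tsum_eq {a H L : ℝ} :
    (∑' n : ℕ, if n = 0 then 0 else dv n * (n : ℝ) ^ (-a) *
      Real.exp (-(H ^ 2 * (L - Real.log n) ^ 2 / 4))) =
      ∑' n : ℕ, dv n * (n : ℝ) ^ (-a) * Real.exp (-(H ^ 2 * (L - Real.log n) ^ 2 / 4)) := by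
  refine tsum_congr fun n => ?_
  split_ifs with h
  · rw [h]
    simp [dv]
  · rfl

end Pool.Agent.H63.RU
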