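import Pool.Agent.H47.RU.Targets
import Pool.Agent.H63.PZ.UG
import Pool.Agent.H70.PZ.UR

/-!
# Module UH: growth, orders and the right side
-/

set_option autoImplicit false

open Complex Filter Topology

namespace Pool.Agent.H63.RU

open Pool.Agent.H23.GLH (PrimChar)
open Pool.Agent.H28.MZ Pool.Agent.H47.RU
open Pool.Agent.H63.PZ Pool.Agent.H70.PZ

lemma poly_unif (S : Set PrimChar) (hS : S.Finite) (D : ℝ) :
    ∃ C : ℝ, 0 < C ∧ ∀ ψ ∈ S, ∀ w : ℂ, -D ≤ w.re → 1 ≤ |w.im| →
      ‖ψ.L w‖ ≤ C * (1 + |w.im|) ^ C := by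
  choose Cf hCf0 hCf using fun ψ : PrimChar => poly ψ D
  obtain ⟨M, hM⟩ := (hS.image Cf).bddAbove
  refine ⟨max M 1, lt_of_lt_of_le one_pos (le_max_right _ _), ?_⟩
  intro ψ hψ w h1 h2
  have h3 : Cf ψ ≤ max M 1 := (hM (Set.mem_image_of_mem Cf hψ)).trans (le_max_left _ _)
  have h4 : 0 < Cf ψ := hCf0 ψ
  have h5 : 1 ≤ 1 + |w.im| := by linarith
  calc ‖ψ.L w‖ ≤ Cf ψ * (1 + |w.im|) ^ Cf ψ := hCf ψ w h1 h2
    _ ≤ max M 1 * (1 + |w.im|) ^ (max M 1) :=
        mul_le_mul h3 (Real.rpow_le_rpow_of_exponent_le h5 h3) (by positivity) (by positivity)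

lemma analG (ψ : PrimChar) (b : ℕ → ℝ) (Y : ℕ) (r η : ℝ) (hr : 0 < r) {s : ℂ} (hs : 0 < s.im) :
    AnalyticAt ℂ (fun s => ψ.L (wl r 0 s)) s ∧
      AnalyticAt ℂ (fun s => Bf ψ b Y (wl r 0 s + 2 * r * η)) s := by
  have him : 0 < (wl r 0 s).im := by
    rw [wl_im]
    simp only [add_zero]
    positivity
  refine ⟨(analL ψ him).comp (analyticAt_wl _ _ s), ?_⟩
  exact ((diffBf ψ b Y).comp
    ((differentiable_wl r 0).add_const (2 * (r : ℂ) * η))).analyticAt s

theorem pf_UH : T_UH := by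
  intro S A hS hA
  have hA0 : 0 < A := by linarith
  obtain ⟨m, hm⟩ : ∃ m : ℕ, m = ⌈3 * A / 2⌉₊ := ⟨_, rfl⟩
  have hmA : 3 * A / 2 ≤ m := by rw [hm]; exact Nat.le_ceil _
  obtain ⟨C1, hC1, hp⟩ := poly_unif S hS m
  have hKK := KK_nonneg
  refine ⟨2 * C1 + m + 2 + (KK ^ 2 + 2 * KK), 1 + 2 * A + C1, by positivity, ?_⟩
  intro T η n Y r ψ b hT hη0 hη1 hn hY1 hYT hψ hMol
  have hT1 : 1 ≤ T := by linarith
  have hT0 : 0 < T := by linarith
  have hr0 : ∀ i, 0 < r i := fun i => lt_of_lt_of_le (by positivity) (hψ i).2.1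
  have hn0 : (0 : ℝ) < n := by exact_mod_cast hn
  have hnC : ‖(1 / (n : ℂ))‖ = 1 / n := by
    rw [norm_div, norm_one, Complex.norm_natCast]
  refine ⟨?_, ?_, ?_, ?_⟩
  · intro s hs
    unfold Uf
    refine DifferentiableAt.const_mul ?_ _
    refine DifferentiableAt.fun_sum fun i _ => ?_
    unfold G
    have h1 := analG (ψ i) (b i) Y (r i) η (hr0 i) (show 0 < s.im by linarith)
    exact h1.1.differentiableAt.mul h1.2.differentiableAt
  · intro s hre hi1 hi2
    have hG : ∀ i, ‖G (ψ i) (b i) Y (r i) η s‖ ≤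
        T ^ (2 * C1 + m + 2 + (KK ^ 2 + 2 * KK)) := by
      intro i
      obtain ⟨hψS, hrA, hrA'⟩ := hψ i
      have hri := hr0 i
      have w1 : -(m : ℝ) ≤ (wl (r i) 0 s).re := by
        rw [wl_re]
        have : r i * (s.re - 1 / 2) ≥ -(3 * A / 2) := by nlinarith
        linarith
      have w2 : (wl (r i) 0 s).im = r i * s.im := by rw [wl_im, add_zero]
      have w3 : 1 ≤ (wl (r i) 0 s).im := by
        rw [w2]
        have : 1 ≤ r i * A := by
          rw [div_le_iff₀ hA0] at hrA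
          exact hrA
        nlinarith
      have w4 : (wl (r i) 0 s).im ≤ 2 * A * T := by
        rw [w2]
        nlinarith
      have e1 : ‖(ψ i).L (wl (r i) 0 s)‖ ≤ C1 * T ^ (2 * C1) := by
        have h1 := hp (ψ i) hψS _ w1 (by rw [abs_of_pos (by linarith)]; exact w3)
        rw [abs_of_pos (by linarith)] at h1
        refine h1.trans ?_
        gcongr
        calc (1 + (wl (r i) 0 s).im) ^ C1 ≤ (T ^ (2 : ℝ)) ^ C1 := by
              have h2 : 1 + (wl (r i) 0 s).im ≤ T ^ (2 : ℝ) := by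
                rw [Real.rpow_two]
                nlinarith
              exact Real.rpow_le_rpow (by linarith) h2 hC1.le
          _ = T ^ (2 * C1) := by rw [← Real.rpow_mul hT0.le]
      have e2 : ‖Bf (ψ i) (b i) Y (wl (r i) 0 s + 2 * r i * η)‖ ≤ T ^ (m + 1) := by
        refine norm_Bf (ψ i) (b i) Y (hMol i).le hT1 hYT m ?_
        have h1 : (wl (r i) 0 s + 2 * (r i : ℂ) * (η : ℂ)).re =
            (wl (r i) 0 s).re + 2 * r i * η := by simp
        rw [h1]
        have : 0 ≤ r i * η := by positivity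
        linarith
      unfold G
      rw [norm_mul]
      calc ‖(ψ i).L (wl (r i) 0 s)‖ * ‖Bf (ψ i) (b i) Y (wl (r i) 0 s + 2 * r i * η)‖
          ≤ (C1 * T ^ (2 * C1)) * T ^ (m + 1) := by gcongr
        _ ≤ (T * T ^ (2 * C1)) * T ^ (m + 1) := by
            gcongr
            linarith
        _ = T ^ (2 * C1) * T ^ (m + 2) := by ring
        _ = T ^ (2 * C1 + m + 2) := by
            rw [← Real.rpow_natCast T (m + 2), ← Real.rpow_add hT0]
            congr 1
            push_cast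
            ring
        _ ≤ _ := Real.rpow_le_rpow_of_exponent_le hT1 (by nlinarith)
    unfold Uf
    rw [norm_mul, hnC]
    calc 1 / (n : ℝ) * ‖∑ i, G (ψ i) (b i) Y (r i) η s‖
        ≤ 1 / (n : ℝ) * ∑ _i : Fin n, T ^ (2 * C1 + m + 2 + (KK ^ 2 + 2 * KK)) := by
          refine mul_le_mul_of_nonneg_left (norm_sum_le_of_le _ fun i _ => hG i) (by positivity)
      _ = T ^ (2 * C1 + m + 2 + (KK ^ 2 + 2 * KK)) := by
          rw [Finset.sum_const, Finset.card_univ, Fintype.card_fin, nsmul_eq_mul]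
          field_simp
  · intro s k hs hord
    have hs0 : 0 < s.im := by linarith
    have hGa : ∀ i, AnalyticAt ℂ (G (ψ i) (b i) Y (r i) η) s := by
      intro i
      have h1 := analG (ψ i) (b i) Y (r i) η (hr0 i) hs0
      exact h1.1.mul h1.2
    have hGo : ∀ i, (k : ℕ∞) ≤ analyticOrderAt (G (ψ i) (b i) Y (r i) η) s := by
      intro i
      have h1 := analG (ψ i) (b i) Y (r i) η (hr0 i) hs0
      have h2 : G (ψ i) (b i) Y (r i) η =
          (fun s => Bf (ψ i) (b i) Y (wl (r i) 0 s + 2 * r i * η)) *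
            fun s => (ψ i).L (wl (r i) 0 s) := by
        funext s
        simp only [G, Pi.mul_apply]
        ring
      rw [h2, analyticOrderAt_mul h1.2 h1.1, order_comp_wl (ψ i).L (hr0 i) 0 s]
      exact (hord i).trans le_add_self
    choose g hg1 hg2 using fun i => (natCast_le_analyticOrderAt (hGa i)).1 (hGo i)
    have hUa : AnalyticAt ℂ (Uf n ψ b Y r η) s := by
      have h1 : AnalyticAt ℂ (fun s => ∑ i, G (ψ i) (b i) Y (r i) η s) s :=
        Finset.analyticAt_fun_sum _ fun i _ => hGa i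
      exact analyticAt_const.mul h1
    rw [natCast_le_analyticOrderAt hUa]
    refine ⟨fun z => (1 / (n : ℂ)) * ∑ i, g i z, ?_, ?_⟩
    · have h1 : AnalyticAt ℂ (fun z => ∑ i, g i z) s :=
        Finset.analyticAt_fun_sum _ fun i _ => hg1 i
      exact analyticAt_const.mul h1
    · have h1 : ∀ᶠ z in 𝓝 s, ∀ i, G (ψ i) (b i) Y (r i) η z = (z - s) ^ k • g i z :=
        eventually_all.2 hg2
      filter_upwards [h1] with z hz
      unfold Uf
      rw [Finset.sum_congr rfl fun i _ => hz i]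
      simp only [smul_eq_mul]
      rw [← Finset.mul_sum]
      ring
  · intro s hs
    have hx4 : 4 ≤ s.re / A := by
      rw [le_div_iff₀ hA0]
      exact hs
    obtain ⟨x, hx⟩ : ∃ x : ℝ, x = s.re / A := ⟨_, rfl⟩
    rw [← hx] at hx4
    have ht0 : 0 ≤ (2 : ℝ) ^ (-x) := by positivity
    have ht1 : (2 : ℝ) ^ (-x) ≤ 1 :=
      Real.rpow_le_one_of_one_le_of_nonpos (by norm_num) (by linarith)
    have hG : ∀ i, ‖G (ψ i) (b i) Y (r i) η s - 1‖ ≤ (KK ^ 2 + 2 * KK) * (2 : ℝ) ^ (-x) := by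
      intro i
      obtain ⟨hψS, hrA, hrA'⟩ := hψ i
      have hri := hr0 i
      have hw : x ≤ (wl (r i) 0 s).re := by
        rw [wl_re, hx]
        have h1 : 1 / A * (s.re - 1 / 2) ≤ r i * (s.re - 1 / 2) :=
          mul_le_mul_of_nonneg_right hrA (by linarith)
        have h2 : 1 / A * (s.re - 1 / 2) = s.re / A - 1 / A / 2 := by ring
        have h3 : 1 / A ≤ 1 := by
          rw [div_le_one hA0]
          exact hA
        linarith
      unfold G
      apply LB_sub_one _ _ ((2 : ℝ) ^ (-x)) KK ht0 ht1 hKK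
      · exact L_sub_one (ψ i) x (by linarith) _ hw
      · apply B_sub_one (ψ i) (b i) (hMol i) Y hY1 x (by linarith)
        have h2 : (wl (r i) 0 s + 2 * (r i : ℂ) * (η : ℂ)).re =
            (wl (r i) 0 s).re + 2 * r i * η := by simp
        rw [h2]
        have : 0 ≤ r i * η := by positivity
        linarith
    have hUe : Uf n ψ b Y r η s - 1 = (1 / (n : ℂ)) * ∑ i, (G (ψ i) (b i) Y (r i) η s - 1) := by
      unfold Uf
      rw [Finset.sum_sub_distrib, mul_sub]
      congr 1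
      simp only [Finset.sum_const, Finset.card_univ, Fintype.card_fin, nsmul_eq_mul, mul_one]
      have : (n : ℂ) ≠ 0 := by exact_mod_cast (by omega : n ≠ 0)
      field_simp
    rw [hUe, norm_mul, hnC]
    have hexp : (2 : ℝ) ^ (-x) ≤ (2 : ℝ) ^ (-(s.re / (2 * A))) := by
      refine Real.rpow_le_rpow_of_exponent_le (by norm_num) ?_
      have : s.re / (2 * A) = x / 2 := by
        rw [hx]
        field_simp
      rw [this]
      linarith
    calc 1 / (n : ℝ) * ‖∑ i, (G (ψ i) (b i) Y (r i) η s - 1)‖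
        ≤ 1 / (n : ℝ) * ∑ _i : Fin n, (KK ^ 2 + 2 * KK) * (2 : ℝ) ^ (-x) := by
          refine mul_le_mul_of_nonneg_left (norm_sum_le_of_le _ fun i _ => hG i) (by positivity)
      _ = (KK ^ 2 + 2 * KK) * (2 : ℝ) ^ (-x) := by
          rw [Finset.sum_const, Finset.card_univ, Fintype.card_fin, nsmul_eq_mul]
          field_simp
      _ ≤ (2 * C1 + m + 2 + (KK ^ 2 + 2 * KK)) * (2 : ℝ) ^ (-(s.re / (2 * A))) := by
          refine mul_le_mul ?_ hexp (by positivity) (by positivity)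
          have : (0 : ℝ) ≤ m := Nat.cast_nonneg _
          linarith

end Pool.Agent.H63.RU
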